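import Mathlib

/-!
Finite unions of arithmetic progressions (common difference `0` allowed).
-/

set_option autoImplicit false

namespace Pool.Agent.W206.DML

/-- `S` is a finite union of arithmetic progressions `a + r k`, `k ∈ ℕ`, with `r = 0` allowed. -/
def FU (S : Set ℕ) : Prop :=
  ∃ T : Finset (ℕ × ℕ), S = {n : ℕ | ∃ t ∈ T, ∃ k : ℕ, n = t.1 + t.2 * k}

/-- `S` is eventually periodic. -/
def EP (S : Set ℕ) : Prop := ∃ N p : ℕ, 0 < p ∧ ∀ n, N ≤ n → (n ∈ S ↔ n + p ∈ S)

theorem EP.iter {S : Set ℕ} {N p : ℕ} (h : ∀ n, N ≤ n → (n ∈ S ↔ n + p ∈ S)) :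
    ∀ j n, N ≤ n → (n ∈ S ↔ n + p * j ∈ S) := by
  intro j
  induction j with
  | zero => intro n _; simp
  | succ j ih =>
    intro n hn
    rw [ih n hn, h (n + p * j) (by omega)]
    have : n + p * j + p = n + p * (j + 1) := by ring
    rw [this]

theorem EP.inter {S S' : Set ℕ} (h : EP S) (h' : EP S') : EP (S ∩ S') := by
  obtain ⟨N, p, hp, h⟩ := h
  obtain ⟨N', p', hp', h'⟩ := h'
  refine ⟨max N N', p * p', Nat.mul_pos hp hp', fun n hn => ?_⟩
  have h1 := EP.iter h p' n (le_trans (le_max_left _ _) hn)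
  have h2 := EP.iter h' p n (le_trans (le_max_right _ _) hn)
  rw [mul_comm p' p] at h2
  exact and_congr h1 h2

theorem EP.union {S S' : Set ℕ} (h : EP S) (h' : EP S') : EP (S ∪ S') := by
  obtain ⟨N, p, hp, h⟩ := h
  obtain ⟨N', p', hp', h'⟩ := h'
  refine ⟨max N N', p * p', Nat.mul_pos hp hp', fun n hn => ?_⟩
  have h1 := EP.iter h p' n (le_trans (le_max_left _ _) hn)
  have h2 := EP.iter h' p n (le_trans (le_max_right _ _) hn)
  rw [mul_comm p' p] at h2
  exact or_congr h1 h2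

theorem EP.univ : EP Set.univ := ⟨0, 1, one_pos, fun n _ => by simp⟩

theorem EP.empty : EP ∅ := ⟨0, 1, one_pos, fun n _ => by simp⟩

theorem EP.biInter {ι : Type*} (s : Finset ι) (S : ι → Set ℕ) (h : ∀ i ∈ s, EP (S i)) :
    EP {n | ∀ i ∈ s, n ∈ S i} := by
  classical
  induction s using Finset.induction_on with
  | empty => simpa using EP.univ
  | insert a s ha ih =>
    have h1 := (h a (Finset.mem_insert_self _ _)).inter
      (ih fun i hi => h i (Finset.mem_insert_of_mem hi))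
    convert h1 using 1
    ext n
    simp

theorem EP.preimage {S : Set ℕ} (h : EP S) (k c : ℕ) : EP {n | k * n + c ∈ S} := by
  obtain ⟨N, p, hp, h⟩ := h
  rcases Nat.eq_zero_or_pos k with hk | hk
  · subst hk
    exact ⟨0, 1, one_pos, fun n _ => by simp⟩
  refine ⟨N, p, hp, fun n hn => ?_⟩
  have h1 : N ≤ k * n + c := by nlinarith
  have h2 := EP.iter h k (k * n + c) h1
  have h3 : k * n + c + p * k = k * (n + p) + c := by ring
  rw [h3] at h2
  exact h2

theorem EP.progression (a r : ℕ) : EP {n : ℕ | ∃ k : ℕ, n = a + r * k} := by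
  rcases Nat.eq_zero_or_pos r with hr | hr
  · subst hr
    refine ⟨a + 1, 1, one_pos, fun n hn => ?_⟩
    simp only [zero_mul, add_zero, Set.mem_setOf_eq, exists_const]
    omega
  · refine ⟨a, r, hr, fun n hn => ⟨?_, ?_⟩⟩
    · rintro ⟨k, hk⟩
      exact ⟨k + 1, by rw [hk]; ring⟩
    · rintro ⟨k, hk⟩
      cases k with
      | zero => omega
      | succ k =>
        refine ⟨k, ?_⟩
        have : a + r * (k + 1) = a + r * k + r := by ring
        omega

theorem FU.ep {S : Set ℕ} (h : FU S) : EP S := by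
  classical
  obtain ⟨T, rfl⟩ := h
  induction T using Finset.induction_on with
  | empty => simpa using EP.empty
  | insert a s ha ih =>
    have h1 := (EP.progression a.1 a.2).union ih
    convert h1 using 1
    ext n
    simp

theorem EP.fu {S : Set ℕ} (h : EP S) : FU S := by
  classical
  obtain ⟨N, p, hp, h⟩ := h
  refine ⟨((Finset.range N).filter (· ∈ S)).image (fun a => (a, 0)) ∪
    ((Finset.Ico N (N + p)).filter (· ∈ S)).image (fun a => (a, p)), ?_⟩
  ext n
  simp only [Finset.mem_union, Finset.mem_image, Finset.mem_filter, Finset.mem_range,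
    Finset.mem_Ico, Set.mem_setOf_eq]
  constructor
  · intro hn
    by_cases hN : n < N
    · exact ⟨(n, 0), Or.inl ⟨n, ⟨hN, hn⟩, rfl⟩, 0, by simp⟩
    · push Not at hN
      have hd := Nat.mod_add_div (n - N) p
      have hmod := Nat.mod_lt (n - N) hp
      have hn' : n = (N + (n - N) % p) + p * ((n - N) / p) := by omega
      refine ⟨(N + (n - N) % p, p), Or.inr ⟨_, ⟨⟨by omega, by omega⟩, ?_⟩, rfl⟩, _, hn'⟩
      rw [EP.iter h ((n - N) / p) (N + (n - N) % p) (by omega), ← hn']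
      exact hn
  · rintro ⟨t, (⟨a, ⟨ha, haS⟩, rfl⟩ | ⟨a, ⟨⟨ha, ha'⟩, haS⟩, rfl⟩), k, rfl⟩
    · simpa using haS
    · exact (EP.iter h k a ha).1 haS

theorem FU.preimage {S : Set ℕ} (h : FU S) (k c : ℕ) : FU {n | k * n + c ∈ S} :=
  (h.ep.preimage k c).fu

theorem FU.biInter {ι : Type*} (s : Finset ι) (S : ι → Set ℕ) (h : ∀ i ∈ s, FU (S i)) :
    FU {n | ∀ i ∈ s, n ∈ S i} :=
  (EP.biInter s S fun i hi => (h i hi).ep).fu

end Pool.Agent.W206.DML
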