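import Pool.Agent.W206.DML.Jou

/-!
The equivalence of the Dynamical Mordell-Lang conjecture with its normal form.
-/

set_option autoImplicit false

namespace Pool.Agent.W206.DML

open MvPolynomial

theorem exists_finite {n : ℕ} (S : Set (MvPolynomial (Fin n) ℂ)) :
    ∃ T : Finset (MvPolynomial (Fin n) ℂ), (∀ F ∈ T, F ∈ S) ∧
      ∀ v : Fin n → ℂ, (∀ F ∈ T, eval v F = 0) → ∀ F ∈ S, eval v F = 0 := by
  obtain ⟨T, hT, hspan⟩ := (Submodule.fg_span_iff_fg_span_finset_subset S).1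
    (IsNoetherian.noetherian (Ideal.span S))
  refine ⟨T, fun F hF => hT hF, fun v hv F hF => ?_⟩
  have h1 : F ∈ Ideal.span (T : Set (MvPolynomial (Fin n) ℂ)) := by
    have : F ∈ Ideal.span S := Ideal.subset_span hF
    have h2 : Ideal.span S = Ideal.span (T : Set (MvPolynomial (Fin n) ℂ)) := hspan
    rwa [h2] at this
  have h2 : Ideal.span (T : Set (MvPolynomial (Fin n) ℂ)) ≤ RingHom.ker (eval v) :=
    Ideal.span_le.2 fun s hs => hv s hs
  exact h2 h1

theorem dml_of_normal_form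
    (H : ∀ (m : ℕ) (op : Fin m → Bool) (u v : Fin m → Fin m) (a : Fin m → ℂ) (i : Fin m),
      FU {n | ((step op u v)^[n] a) i = 0})
    (N : ℕ) (X' : Set (PP N)) (A B : Set (MvPolynomial (Fin (N + 1)) ℂ))
    (hA : ∀ F ∈ A, ∃ d : ℕ, F.IsHomogeneous d) (hB : ∀ F ∈ B, ∃ d : ℕ, F.IsHomogeneous d)
    (hX : ∀ p : PP N, p ∈ X' ↔ ((∀ F ∈ A, eval p.rep F = 0) ∧ ∃ F ∈ B, eval p.rep F ≠ 0))
    (Φ : PP N → PP N) (hΦX : ∀ x ∈ X', Φ x ∈ X')
    (hΦ : ∀ x ∈ X', ∃ (d e : ℕ) (F : Fin (N + 1) → MvPolynomial (Fin (N + 1)) ℂ)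
      (g : MvPolynomial (Fin (N + 1)) ℂ),
      (∀ i, (F i).IsHomogeneous d) ∧ g.IsHomogeneous e ∧ MvPolynomial.eval x.rep g ≠ 0 ∧
      ∀ y ∈ X', MvPolynomial.eval y.rep g ≠ 0 →
        (fun i : Fin (N + 1) => MvPolynomial.eval y.rep (F i)) ≠ 0 ∧
        (fun i : Fin (N + 1) => MvPolynomial.eval y.rep (F i)) ∈ (Φ y).submodule)
    (α : PP N) (hα : α ∈ X') (V : Set (PP N)) (C : Set (MvPolynomial (Fin (N + 1)) ℂ))
    (hC : ∀ F ∈ C, ∃ d : ℕ, F.IsHomogeneous d)
    (hV : ∀ p : PP N, p ∈ V ↔ ∀ F ∈ C, eval p.rep F = 0) :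
    FU {n : ℕ | Φ^[n] α ∈ V} := by
  classical
  obtain ⟨B₀, hB₀, hB₀'⟩ := exists_finite B
  obtain ⟨C₀, hC₀, hC₀'⟩ := exists_finite C
  have hB1 : ∀ F ∈ B₀, ∃ d : ℕ, F.IsHomogeneous d := fun F hF => hB F (hB₀ F hF)
  have hX1 : ∀ p : PP N, p ∈ X' ↔
      ((∀ F ∈ A, eval p.rep F = 0) ∧ ∃ F ∈ B₀, eval p.rep F ≠ 0) := by
    intro p
    rw [hX]
    refine and_congr_right fun _ => ⟨fun h => ?_, fun ⟨F, hF, h⟩ => ⟨F, hB₀ F hF, h⟩⟩
    by_contra hne
    push Not at hne
    obtain ⟨F, hF, h⟩ := h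
    exact h (hB₀' _ hne F hF)
  obtain ⟨Q, hQ⟩ := exists_lift hA hB1 hX1 hΦX hΦ
  obtain ⟨z, hz⟩ := exists_over hB1 ((hX1 α).1 hα).2
  have key : ∀ n, Φ^[n] α ∈ X' ∧
      Over ((fun (x : St N B₀ → ℂ) s => eval x (Q s))^[n] z) (Φ^[n] α) := by
    intro n
    induction n with
    | zero => exact ⟨hα, hz⟩
    | succ n ih =>
      rw [Function.iterate_succ_apply', Function.iterate_succ_apply']
      exact ⟨hΦX _ ih.1, hQ _ ih.1 _ ih.2⟩
  have hfin := FU.biInter (C₀ ×ˢ (Finset.univ : Finset (Fin (N + 1))))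
    (fun Fb => {n | eval ((fun (x : St N B₀ → ℂ) s => eval x (Q s))^[n] z)
      (col B₀ Fb.2 Fb.1) = 0}) (fun Fb _ => fu_of_normal_form H Q z _)
  convert hfin using 1
  ext n
  change Φ^[n] α ∈ V ↔ ∀ Fb ∈ C₀ ×ˢ (Finset.univ : Finset (Fin (N + 1))),
    eval ((fun (x : St N B₀ → ℂ) s => eval x (Q s))^[n] z) (col B₀ Fb.2 Fb.1) = 0
  rw [hV]
  constructor
  · intro h Fb hFb
    have hmem := (Finset.mem_product.1 hFb).1
    obtain ⟨d, hd⟩ := hC _ (hC₀ _ hmem)
    exact ((key n).2.eval_iff hd).1 (h _ (hC₀ _ hmem)) Fb.2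
  · intro h F hF
    refine hC₀' _ (fun G hG => ?_) F hF
    obtain ⟨d, hd⟩ := hC _ (hC₀ _ hG)
    exact ((key n).2.eval_iff hd).2 fun b => h (G, b)
      (Finset.mem_product.2 ⟨hG, Finset.mem_univ _⟩)

/-- The full Dynamical Mordell-Lang conjecture. -/
def FullDML : Prop :=
  ∀ (N : ℕ) (X : Set (Projectivization ℂ (Fin (N + 1) → ℂ))),
    (∃ A B : Set (MvPolynomial (Fin (N + 1)) ℂ),
      (∀ F ∈ A, ∃ d : ℕ, F.IsHomogeneous d) ∧ (∀ F ∈ B, ∃ d : ℕ, F.IsHomogeneous d) ∧
      ∀ p : Projectivization ℂ (Fin (N + 1) → ℂ), p ∈ X ↔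
        ((∀ F ∈ A, MvPolynomial.eval p.rep F = 0) ∧ ∃ F ∈ B, MvPolynomial.eval p.rep F ≠ 0)) →
    ∀ Φ : Projectivization ℂ (Fin (N + 1) → ℂ) → Projectivization ℂ (Fin (N + 1) → ℂ),
      (∀ x ∈ X, Φ x ∈ X) →
      (∀ x ∈ X, ∃ (d e : ℕ) (F : Fin (N + 1) → MvPolynomial (Fin (N + 1)) ℂ)
          (g : MvPolynomial (Fin (N + 1)) ℂ),
          (∀ i, (F i).IsHomogeneous d) ∧ g.IsHomogeneous e ∧ MvPolynomial.eval x.rep g ≠ 0 ∧
          ∀ y ∈ X, MvPolynomial.eval y.rep g ≠ 0 →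
            (fun i : Fin (N + 1) => MvPolynomial.eval y.rep (F i)) ≠ 0 ∧
            (fun i : Fin (N + 1) => MvPolynomial.eval y.rep (F i)) ∈ (Φ y).submodule) →
      ∀ α ∈ X, ∀ V : Set (Projectivization ℂ (Fin (N + 1) → ℂ)),
        (∃ C : Set (MvPolynomial (Fin (N + 1)) ℂ),
          (∀ F ∈ C, ∃ d : ℕ, F.IsHomogeneous d) ∧
          ∀ p : Projectivization ℂ (Fin (N + 1) → ℂ),
            p ∈ V ↔ ∀ F ∈ C, MvPolynomial.eval p.rep F = 0) →
        ∃ T : Finset (ℕ × ℕ),
          {n : ℕ | Φ^[n] α ∈ V} = {n : ℕ | ∃ t ∈ T, ∃ k : ℕ, n = t.1 + t.2 * k}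

/-! ### The converse: affine space inside projective space -/

theorem cons_ne {m : ℕ} (b : Fin m → ℂ) : (Fin.cons 1 b : Fin (m + 1) → ℂ) ≠ 0 := fun h =>
  one_ne_zero (α := ℂ) (by simpa using congrFun h 0)

/-- The point `[1 : b]`. -/
noncomputable def pt {m : ℕ} (b : Fin m → ℂ) : PP m :=
  Projectivization.mk ℂ (Fin.cons 1 b : Fin (m + 1) → ℂ) (cons_ne b)

open Classical in
/-- The endomorphism of projective space (outside the hyperplane at infinity). -/
noncomputable def proj {m : ℕ} (G : Fin (m + 1) → MvPolynomial (Fin (m + 1)) ℂ) (p : PP m) :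
    PP m :=
  if h : (fun i => eval p.rep (G i)) ≠ 0 then
    Projectivization.mk ℂ (fun i => eval p.rep (G i)) h else p

section

variable {m : ℕ} {G : Fin (m + 1) → MvPolynomial (Fin (m + 1)) ℂ} (hG0 : G 0 = X 0 * X 0)
  (hG : ∀ i, (G i).IsHomogeneous 2) {f : (Fin m → ℂ) → (Fin m → ℂ)}
  (hf : ∀ b, (fun i => eval (Fin.cons 1 b : Fin (m + 1) → ℂ) (G i)) =
    (Fin.cons 1 (f b) : Fin (m + 1) → ℂ))

include hG0 in
theorem hom_ne {p : PP m} (hp : p.rep 0 ≠ 0) : (fun i => eval p.rep (G i)) ≠ 0 := fun h => by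
  have := congrFun h 0
  simp only [hG0, map_mul, eval_X, Pi.zero_apply, mul_self_eq_zero] at this
  exact hp this

include hG0 hG hf in
theorem proj_mk (b : Fin m → ℂ) : proj G (pt b) = pt (f b) := by
  obtain ⟨c, hc, hrep⟩ := rep_scale (cons_ne b)
  have hrep' : (pt b).rep = fun i => c * (Fin.cons 1 b : Fin (m + 1) → ℂ) i := hrep
  have h0 : (pt b).rep 0 ≠ 0 := by
    rw [hrep']
    simpa using hc
  rw [proj, dif_pos (hom_ne hG0 h0)]
  refine (Projectivization.mk_eq_mk_iff' ℂ _ _ _ _).2 ?_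
  refine ⟨c ^ 2, ?_⟩
  rw [← hf, hrep']
  funext i
  rw [hom_eval (hG i)]
  rfl

include hG0 hG hf in
theorem iterate_proj (a : Fin m → ℂ) (n : ℕ) : (proj G)^[n] (pt a) = pt (f^[n] a) := by
  induction n with
  | zero => rfl
  | succ n ih =>
    rw [Function.iterate_succ_apply', ih, proj_mk hG0 hG hf, Function.iterate_succ_apply']

include hG0 hG hf in
theorem fu_of_dml (H : FullDML) (a : Fin m → ℂ) (i : Fin m) : FU {n | (f^[n] a) i = 0} := by
  obtain ⟨T, hT⟩ := H m {p | p.rep 0 ≠ 0}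
    ⟨∅, {X 0}, by simp, fun F hF => ⟨1, by
      rw [Set.mem_singleton_iff.1 hF]; exact isHomogeneous_X ℂ 0⟩, fun p => by
      constructor
      · intro hp
        exact ⟨fun F hF => absurd hF (Set.notMem_empty F), X 0, rfl, by
          rw [eval_X]; exact hp⟩
      · rintro ⟨_, F, hF, h⟩
        rw [Set.mem_singleton_iff.1 hF, eval_X] at h
        exact h⟩
    (proj G)
    (fun x hx => by
      have h0 : x.rep 0 ≠ 0 := hx
      change (proj G x).rep 0 ≠ 0
      rw [proj, dif_pos (hom_ne hG0 h0)]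
      obtain ⟨c, hc, hrep⟩ := rep_scale (hom_ne hG0 h0)
      rw [hrep]
      simp only [hG0, map_mul, eval_X]
      exact mul_ne_zero hc (mul_ne_zero h0 h0))
    (fun x hx => ⟨2, 0, G, 1, hG, isHomogeneous_one _ _, by simp, fun y hy _ => by
        have h0 : y.rep 0 ≠ 0 := hy
        refine ⟨hom_ne hG0 h0, ?_⟩
        rw [proj, dif_pos (hom_ne hG0 h0), Projectivization.submodule_mk]
        exact Submodule.mem_span_singleton_self _⟩)
    (pt a)
    (by
      obtain ⟨c, hc, hrep⟩ := rep_scale (cons_ne a)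
      change (Projectivization.mk ℂ (Fin.cons 1 a : Fin (m + 1) → ℂ) (cons_ne a)).rep 0 ≠ 0
      rw [hrep]
      simpa using hc)
    {p | eval p.rep (X i.succ) = 0}
    ⟨{X i.succ}, fun F hF => ⟨1, by
      rw [Set.mem_singleton_iff.1 hF]; exact isHomogeneous_X ℂ _⟩, fun p => by
      simp⟩
  refine ⟨T, ?_⟩
  rw [← hT]
  ext n
  change (f^[n] a) i = 0 ↔ eval ((proj G)^[n] (pt a)).rep (X i.succ) = 0
  rw [iterate_proj hG0 hG hf]
  unfold pt
  rw [eval_rep_iff (cons_ne _) (isHomogeneous_X ℂ _), eval_X, Fin.cons_succ]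

end

/-! ### Squaring maps -/

/-- Coordinatewise squaring followed by the matrix `A`. -/
def sqm {ι : Type} [Fintype ι] (A : ι → ι → ℤ) (x : ι → ℂ) : ι → ℂ :=
  fun i => ∑ j, (A i j : ℂ) * x j ^ 2

theorem sq_of_dml (H : FullDML) {m : ℕ} (A : Fin m → Fin m → ℤ) (a : Fin m → ℂ) (i : Fin m) :
    FU {n | ((sqm A)^[n] a) i = 0} := by
  refine fu_of_dml (G := Fin.cons (X 0 * X 0) fun i => ∑ j, C (A i j : ℂ) * X j.succ ^ 2)
    rfl (fun i => ?_) (fun b => ?_) H a i
  · refine Fin.cases ?_ (fun i => ?_) i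
    · exact (isHomogeneous_X ℂ 0).mul (isHomogeneous_X ℂ 0)
    · simp only [Fin.cons_succ]
      refine IsHomogeneous.sum _ _ _ fun j _ => ?_
      have h1 := (isHomogeneous_C (Fin (m + 1)) (A i j : ℂ)).mul
        ((isHomogeneous_X ℂ j.succ).pow 2)
      simpa using h1
  · funext i
    refine Fin.cases ?_ (fun i => ?_) i
    · simp
    · simp [sqm]

/-- The linear combination of squares which gives `8 r_j r_k`. -/
def mu {J : Type} [DecidableEq J] (j k : J) : J × J → ℤ :=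
  fun l => 4 * (if l = (j, k) then 1 else 0) - (if l = (j, j) then 1 else 0) -
    (if l = (k, k) then 1 else 0)

theorem sum_mu {J : Type} [Fintype J] [DecidableEq J] (j k : J) (r : J → ℂ) :
    ∑ l : J × J, (mu j k l : ℂ) * (r l.1 + r l.2) ^ 2 = 8 * (r j * r k) := by
  have h : ∀ l0 : J × J, ∑ l : J × J, (if l = l0 then (1 : ℂ) else 0) * (r l.1 + r l.2) ^ 2 =
      (r l0.1 + r l0.2) ^ 2 := by
    intro l0
    rw [Finset.sum_eq_single l0]
    · simp
    · intro b _ hb
      simp [hb]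
    · intro h
      exact absurd (Finset.mem_univ _) h
  have h1 := h (j, k)
  have h2 := h (j, j)
  have h3 := h (k, k)
  have : ∀ l : J × J, (mu j k l : ℂ) * (r l.1 + r l.2) ^ 2 =
      4 * ((if l = (j, k) then (1 : ℂ) else 0) * (r l.1 + r l.2) ^ 2) -
      (if l = (j, j) then (1 : ℂ) else 0) * (r l.1 + r l.2) ^ 2 -
      (if l = (k, k) then (1 : ℂ) else 0) * (r l.1 + r l.2) ^ 2 := by
    intro l
    simp only [mu]
    push_cast
    ring
  simp only [this, Finset.sum_sub_distrib, ← Finset.mul_sum, h1, h2, h3]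
  ring

theorem step_of_sq
    (H : ∀ (m : ℕ) (A : Fin m → Fin m → ℤ) (a : Fin m → ℂ) (i : Fin m),
      FU {n | ((sqm A)^[n] a) i = 0})
    (m : ℕ) (op : Fin m → Bool) (u v : Fin m → Fin m) (a : Fin m → ℂ) (i : Fin m) :
    FU {n | ((step op u v)^[n] a) i = 0} := by
  classical
  let J := Option (Fin m)
  let B : J → J × J → ℤ := fun j => match j with
    | none => mu none none
    | some j => if op j then mu none (some (u j)) + mu none (some (v j))
      else mu (some (u j)) (some (v j))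
  let A : J × J → J × J → ℤ := fun jk l => B jk.1 l + B jk.2 l
  let L : (Fin m → ℂ) → (J × J → ℂ) := fun s jk =>
    (jk.1.elim 1 s + jk.2.elim 1 s) / 8
  have hB : ∀ (s : Fin m → ℂ) (j : J), ∑ l : J × J, (B j l : ℂ) * (L s l) ^ 2 =
      (j.elim 1 (step op u v s)) / 8 := by
    intro s j
    have hL : ∀ l : J × J, L s l = ((fun j : J => j.elim 1 s / 8) l.1 +
        (fun j : J => j.elim 1 s / 8) l.2) := by
      intro l
      simp only [L]
      ring
    rcases j with _ | j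
    · simp only [B, hL]
      rw [sum_mu none none fun j : J => j.elim 1 s / 8]
      simp only [Option.elim_none]
      ring
    · by_cases hop : op j = true
      · have h1 := sum_mu (none : J) (some (u j)) fun j : J => j.elim 1 s / 8
        have h2 := sum_mu (none : J) (some (v j)) fun j : J => j.elim 1 s / 8
        simp only [B, hL, hop, if_true, Pi.add_apply]
        push_cast
        simp only [add_mul, Finset.sum_add_distrib]
        rw [h1, h2]
        simp only [Option.elim_none, Option.elim_some, step, hop, if_true]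
        ring
      · have h1 := sum_mu (some (u j) : J) (some (v j)) fun j : J => j.elim 1 s / 8
        simp only [B, hL, hop, if_false, Bool.false_eq_true]
        rw [h1]
        simp only [Option.elim_some, step, hop, if_false, Bool.false_eq_true]
        ring
  have hA : ∀ s : Fin m → ℂ, sqm A (L s) = L (step op u v s) := by
    intro s
    funext jk
    simp only [sqm, A]
    push_cast
    simp only [add_mul, Finset.sum_add_distrib]
    rw [hB, hB]
    simp only [L]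
    ring
  have hA' : ∀ n, (sqm A)^[n] (L a) = L ((step op u v)^[n] a) := by
    intro n
    induction n with
    | zero => rfl
    | succ n ih => rw [Function.iterate_succ_apply', ih, hA, Function.iterate_succ_apply']
  obtain ⟨M, ⟨φ⟩⟩ := Finite.exists_equiv_fin (J × J)
  have h1 := H M (fun j k => A (φ.symm j) (φ.symm k)) (fun j => L a (φ.symm j))
    (φ (some i, some i))
  have hconj : ∀ (n : ℕ) (x : J × J → ℂ),
      (sqm fun j k => A (φ.symm j) (φ.symm k))^[n] (fun j => x (φ.symm j)) =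
        fun j => ((sqm A)^[n] x) (φ.symm j) := by
    intro n
    induction n with
    | zero => intro x; rfl
    | succ n ih =>
      intro x
      rw [Function.iterate_succ_apply', ih, Function.iterate_succ_apply']
      funext j
      simp only [sqm]
      exact Equiv.sum_comp φ.symm
        (fun k => (A (φ.symm j) k : ℂ) * ((sqm A)^[n] x k) ^ 2)
  convert h1 using 1
  ext n
  change _ = 0 ↔ ((sqm fun j k => A (φ.symm j) (φ.symm k))^[n]
    (fun j => L a (φ.symm j))) (φ (some i, some i)) = 0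
  rw [hconj, hA']
  simp only [Equiv.symm_apply_apply, L, Option.elim_some]
  constructor
  · intro h
    rw [h]
    simp
  · intro h
    have : (step op u v)^[n] a i = (((step op u v)^[n] a i + (step op u v)^[n] a i) / 8) * 4 := by
      ring
    rw [this, h, zero_mul]

end Pool.Agent.W206.DML
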