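import Mathlib

/-!
Polynomial self-maps of `ℂ^σ` are simulated by self-maps of `ℂ^m` all of whose coordinates are
sums or products of two coordinates.
-/

set_option autoImplicit false

namespace Pool.Agent.W206.DML

open MvPolynomial

/-- The self-map of `ℂ^ι` with coordinates `x (u j) + x (v j)` or `x (u j) * x (v j)`. -/
def step {ι : Type} (op : ι → Bool) (u v : ι → ι) (x : ι → ℂ) : ι → ℂ :=
  fun j => if op j then x (u j) + x (v j) else x (u j) * x (v j)

/-- Gates. -/
inductive Gate (σ : Type) : Type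
  | copy : σ → Gate σ
  | add : σ → σ → Gate σ
  | mul : σ → σ → Gate σ

/-- Value of a gate. -/
def Gate.val {σ : Type} (x : σ → ℂ) : Gate σ → ℂ
  | .copy a => x a
  | .add a b => x a + x b
  | .mul a b => x a * x b

/-- Renaming the inputs of a gate. -/
def Gate.map {σ τ : Type} (f : σ → τ) : Gate σ → Gate τ
  | .copy a => .copy (f a)
  | .add a b => .add (f a) (f b)
  | .mul a b => .mul (f a) (f b)

@[simp] theorem Gate.val_map {σ τ : Type} (f : σ → τ) (g : Gate σ) (x : τ → ℂ) :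
    (g.map f).val x = g.val (fun s => x (f s)) := by
  cases g <;> rfl

@[simp] theorem Gate.val_copy {σ : Type} (x : σ → ℂ) (a : σ) : (Gate.copy a).val x = x a := rfl
@[simp] theorem Gate.val_add {σ : Type} (x : σ → ℂ) (a b : σ) :
    (Gate.add a b).val x = x a + x b := rfl
@[simp] theorem Gate.val_mul {σ : Type} (x : σ → ℂ) (a b : σ) :
    (Gate.mul a b).val x = x a * x b := rfl

/-- Compositions of layers of gates. -/
inductive Chain : {σ τ : Type} → ((σ → ℂ) → (τ → ℂ)) → Prop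
  | id {σ : Type} : Chain (fun x : σ → ℂ => x)
  | layer {σ τ υ : Type} [Finite υ] (f : (σ → ℂ) → (τ → ℂ)) (g : υ → Gate τ) (hf : Chain f) :
      Chain (fun (x : σ → ℂ) (j : υ) => (g j).val (f x))

theorem Chain.comp {σ τ υ : Type} {f : (σ → ℂ) → (τ → ℂ)} {g : (τ → ℂ) → (υ → ℂ)}
    (hf : Chain f) (hg : Chain g) : Chain (fun x => g (f x)) := by
  induction hg with
  | id => exact hf
  | layer g' l _ ih => exact Chain.layer _ l ih

theorem Chain.gates {σ υ : Type} [Finite υ] (g : υ → Gate σ) :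
    Chain (fun (x : σ → ℂ) (j : υ) => (g j).val x) := Chain.layer _ g Chain.id

theorem Chain.prod {σ τ : Type} {f : (σ → ℂ) → (τ → ℂ)} (hf : Chain f) (κ : Type) [Finite κ] :
    Chain (fun (z : σ ⊕ κ → ℂ) => (Sum.elim (f fun s => z (Sum.inl s)) fun k => z (Sum.inr k) :
      τ ⊕ κ → ℂ)) := by
  induction hf with
  | id =>
    have : (fun (z : σ ⊕ κ → ℂ) => (Sum.elim (fun s => z (Sum.inl s)) fun k => z (Sum.inr k) :
      σ ⊕ κ → ℂ)) = fun z => z := by
      funext z j
      cases j <;> rfl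
    rw [this]
    exact Chain.id
  | @layer τ' υ' _ f' g hf' ih =>
    have h1 := Chain.layer _ (fun j : υ' ⊕ κ => (Sum.elim (fun a => (g a).map Sum.inl)
      (fun k => Gate.copy (Sum.inr k)) j : Gate (τ' ⊕ κ))) ih
    convert h1 using 1
    funext z j
    cases j <;> simp

/-- `h` can be computed from the input and some constants by layers of gates. -/
def CompF {σ τ : Type} (h : (σ → ℂ) → (τ → ℂ)) : Prop :=
  ∃ (κ : Type) (_ : Finite κ) (c : κ → ℂ) (f : (σ ⊕ κ → ℂ) → ((σ ⊕ κ) ⊕ τ → ℂ)), Chain f ∧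
    ∀ x, f (Sum.elim x c) = Sum.elim (Sum.elim x c) (h x)

theorem CompF.sum {σ τ₁ τ₂ : Type} [Finite σ] [Finite τ₁] [Finite τ₂] {h₁ : (σ → ℂ) → (τ₁ → ℂ)}
    {h₂ : (σ → ℂ) → (τ₂ → ℂ)} (H₁ : CompF h₁) (H₂ : CompF h₂) :
    CompF (fun x => (Sum.elim (h₁ x) (h₂ x) : τ₁ ⊕ τ₂ → ℂ)) := by
  obtain ⟨κ₁, _, c₁, f₁, hf₁, H₁⟩ := H₁
  obtain ⟨κ₂, _, c₂, f₂, hf₂, H₂⟩ := H₂
  -- first layer: duplicate the input
  have A := Chain.gates (fun j : (σ ⊕ κ₁) ⊕ (σ ⊕ κ₂) =>
    (Gate.copy (Sum.elim (Sum.elim (fun s => Sum.inl s) fun k => Sum.inr (Sum.inl k))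
      (Sum.elim (fun s => Sum.inl s) fun k => Sum.inr (Sum.inr k)) j) : Gate (σ ⊕ (κ₁ ⊕ κ₂))))
  have B := hf₁.prod (σ ⊕ κ₂)
  have C := Chain.gates (fun j : (σ ⊕ κ₂) ⊕ ((σ ⊕ κ₁) ⊕ τ₁) =>
    (Gate.copy (Sum.elim (fun s => Sum.inr s) (fun k => Sum.inl k) j) :
      Gate (((σ ⊕ κ₁) ⊕ τ₁) ⊕ (σ ⊕ κ₂))))
  have D := hf₂.prod ((σ ⊕ κ₁) ⊕ τ₁)
  have E := Chain.gates (fun j : (σ ⊕ (κ₁ ⊕ κ₂)) ⊕ (τ₁ ⊕ τ₂) =>
    (Gate.copy (Sum.elim
      (Sum.elim (fun s => Sum.inl (Sum.inl (Sum.inl s)))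
        (Sum.elim (fun k => Sum.inr (Sum.inl (Sum.inr k)))
          (fun k => Sum.inl (Sum.inl (Sum.inr k)))))
      (Sum.elim (fun t => Sum.inr (Sum.inr t)) (fun t => Sum.inl (Sum.inr t))) j) :
      Gate (((σ ⊕ κ₂) ⊕ τ₂) ⊕ ((σ ⊕ κ₁) ⊕ τ₁))))
  refine ⟨κ₁ ⊕ κ₂, inferInstance, Sum.elim c₁ c₂, _, (((A.comp B).comp C).comp D).comp E, ?_⟩
  intro x
  have e1 : (fun s : σ ⊕ κ₁ => Sum.elim x (Sum.elim c₁ c₂) (Sum.elim (fun s => Sum.inl s)
      (fun k => Sum.inr (Sum.inl k)) s)) = Sum.elim x c₁ := by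
    funext s; cases s <;> rfl
  have e2 : (fun s : σ ⊕ κ₂ => Sum.elim x (Sum.elim c₁ c₂) (Sum.elim (fun s => Sum.inl s)
      (fun k => Sum.inr (Sum.inr k)) s)) = Sum.elim x c₂ := by
    funext s; cases s <;> rfl
  simp only [Gate.val_copy, Sum.elim_inl, Sum.elim_inr, e1, e2, H₁, H₂]
  funext j
  rcases j with (s | (k | k)) | (t | t) <;> rfl

theorem CompF.post {σ τ υ : Type} [Finite σ] [Finite υ] {h : (σ → ℂ) → (τ → ℂ)} (H : CompF h)
    (g : υ → Gate (σ ⊕ τ)) : CompF (fun x j => (g j).val (Sum.elim x (h x))) := by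
  obtain ⟨κ, _, c, f, hf, H⟩ := H
  have A := Chain.layer _ (fun j : (σ ⊕ κ) ⊕ υ => (Sum.elim (fun s => Gate.copy (Sum.inl s))
    (fun t => (g t).map (Sum.elim (fun s => Sum.inl (Sum.inl s)) fun t => Sum.inr t)) j :
      Gate ((σ ⊕ κ) ⊕ τ))) hf
  refine ⟨κ, inferInstance, c, _, A, ?_⟩
  intro x
  simp only [H]
  funext j
  rcases j with s | t
  · simp
  · simp only [Sum.elim_inr, Gate.val_map]
    congr 1
    funext s
    cases s <;> simp

theorem CompF.empty {σ τ : Type} [Finite σ] [IsEmpty τ] (h : (σ → ℂ) → (τ → ℂ)) : CompF h := by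
  have A := Chain.gates (fun j : (σ ⊕ Empty) ⊕ τ => (Sum.elim (fun s => Gate.copy s)
    (fun t => isEmptyElim t) j : Gate (σ ⊕ Empty)))
  refine ⟨Empty, inferInstance, Empty.elim, _, A, ?_⟩
  intro x
  funext j
  rcases j with s | t
  · simp
  · exact isEmptyElim t

theorem CompF.const {σ : Type} [Finite σ] (a : ℂ) :
    CompF (fun (_ : σ → ℂ) (_ : Unit) => a) := by
  have A := Chain.gates (fun j : (σ ⊕ Unit) ⊕ Unit => (Sum.elim (fun s => Gate.copy s)
    (fun _ => Gate.copy (Sum.inr ())) j : Gate (σ ⊕ Unit)))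
  refine ⟨Unit, inferInstance, fun _ => a, _, A, ?_⟩
  intro x
  funext j
  rcases j with s | t <;> simp

theorem CompF.poly {σ : Type} [Finite σ] (p : MvPolynomial σ ℂ) :
    CompF (fun (x : σ → ℂ) (_ : Unit) => eval x p) := by
  have hX : ∀ i : σ, CompF (fun (x : σ → ℂ) (_ : Unit) => eval x (X i : MvPolynomial σ ℂ)) := by
    intro i
    have h := (CompF.empty (σ := σ) (τ := Empty) (fun _ j => j.elim)).post
      (fun _ : Unit => Gate.copy (Sum.inl i))
    simpa using h
  induction p using MvPolynomial.induction_on with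
  | C a => simpa using CompF.const (σ := σ) a
  | add p q hp hq =>
    have h := (hp.sum hq).post (fun _ : Unit => Gate.add (Sum.inr (Sum.inl ()))
      (Sum.inr (Sum.inr ())))
    simpa using h
  | mul_X p i hp =>
    have h := (hp.sum (hX i)).post (fun _ : Unit => Gate.mul (Sum.inr (Sum.inl ()))
      (Sum.inr (Sum.inr ())))
    simpa using h

theorem CompF.family {σ : Type} [Finite σ] (τ : Type) [Finite τ] (p : τ → MvPolynomial σ ℂ) :
    CompF (fun (x : σ → ℂ) (t : τ) => eval x (p t)) := by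
  refine (Finite.induction_empty_option (P := fun τ : Type => Finite τ ∧
    ∀ p : τ → MvPolynomial σ ℂ, CompF (fun (x : σ → ℂ) (t : τ) => eval x (p t)))
    ?_ ?_ ?_ τ).2 p
  · intro α β e ih
    haveI := ih.1
    haveI : Finite β := Finite.of_equiv α e
    refine ⟨inferInstance, fun p => ?_⟩
    have h := (ih.2 fun a => p (e a)).post (fun t : β => Gate.copy (Sum.inr (e.symm t)))
    simpa using h
  · exact ⟨inferInstance, fun p => CompF.empty _⟩
  · intro α _ ih
    haveI := ih.1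
    refine ⟨inferInstance, fun p => ?_⟩
    have h := ((ih.2 fun a => p (some a)).sum (CompF.poly (p none))).post
      (fun t : Option α => Gate.copy (Sum.inr (t.elim (Sum.inr ()) Sum.inl)))
    convert h using 1
    funext x t
    cases t <;> simp

theorem Chain.finite {σ τ : Type} [Finite σ] {f : (σ → ℂ) → (τ → ℂ)} (hf : Chain f) :
    Finite τ := by
  induction hf with
  | id => infer_instance
  | layer f g hf ih => infer_instance

/-- Pipelining. -/
theorem Chain.pipeline {σ τ : Type} [Finite σ] {f : (σ → ℂ) → (τ → ℂ)} (hf : Chain f) :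
    ∃ (ρ : Type) (_ : Finite ρ) (e : σ → ρ) (o : τ → ρ) (G : ρ → Gate ρ) (l : ℕ),
      Function.Injective e ∧ ∀ y : ℕ → ρ → ℂ,
        (∀ t, ∀ j, j ∉ Set.range e → y (t + 1) j = (G j).val (y t)) →
        ∀ t i, y (t + l) (o i) = f (fun i => y t (e i)) i := by
  induction hf with
  | id =>
    exact ⟨σ, inferInstance, fun s => s, fun s => s, Gate.copy, 0, fun _ _ h => h,
      fun y _ t i => rfl⟩
  | @layer τ' υ _ f g hf ih =>
    obtain ⟨ρ, _, e, o, G, l, he, H⟩ := ih
    refine ⟨ρ ⊕ υ, inferInstance, fun s => Sum.inl (e s), Sum.inr,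
      Sum.elim (fun j => (G j).map Sum.inl) (fun j => (g j).map fun t => Sum.inl (o t)), l + 1,
      fun a b h => he (Sum.inl_injective h), ?_⟩
    intro y hy t i
    have h1 := hy (t + l) (Sum.inr i) (by rintro ⟨s, hs⟩; simp at hs)
    rw [← add_assoc, h1]
    simp only [Sum.elim_inr, Gate.val_map]
    have h2 := H (fun t j => y t (Sum.inl j)) (fun t j hj => by
      have := hy t (Sum.inl j) (by
        rintro ⟨s, hs⟩
        exact hj ⟨s, Sum.inl_injective hs⟩)
      rw [this]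
      simp) t
    congr 1
    funext s
    exact h2 s

/-- Closing the loop. -/
theorem Chain.loop {σ : Type} [Finite σ] {f : (σ → ℂ) → (σ → ℂ)} (hf : Chain f) (z : σ → ℂ) :
    ∃ (ρ : Type) (_ : Finite ρ) (e : σ → ρ) (G : ρ → Gate ρ) (k : ℕ) (y : ρ → ℂ), 0 < k ∧
      ∀ n i, ((fun (x : ρ → ℂ) j => (G j).val x)^[k * n] y) (e i) = (f^[n] z) i := by
  classical
  obtain ⟨ρ, hρ, e, o, G, l, he, H⟩ := hf.pipeline
  set G' : ρ → Gate ρ := Function.extend e (fun i => Gate.copy (o i)) G with hG'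
  set y0 : ρ → ℂ := Function.extend e z 0 with hy0
  set y : ℕ → ρ → ℂ := fun t => (fun (x : ρ → ℂ) j => (G' j).val x)^[t] y0 with hy
  have hstep : ∀ t j, y (t + 1) j = (G' j).val (y t) := by
    intro t j
    simp only [hy, Function.iterate_succ_apply']
  have hH := H y (fun t j hj => by
    rw [hstep, hG', Function.extend_apply' _ _ _ (fun ⟨a, ha⟩ => hj ⟨a, ha⟩)])
  have hloop : ∀ t i, y (t + (l + 1)) (e i) = f (fun i => y t (e i)) i := by
    intro t i
    rw [← add_assoc, hstep, hG', he.extend_apply, Gate.val_copy, hH]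
  refine ⟨ρ, hρ, e, G', l + 1, y0, Nat.succ_pos _, ?_⟩
  have key : ∀ n, (fun i => y ((l + 1) * n) (e i)) = f^[n] z := by
    intro n
    induction n with
    | zero =>
      funext i
      simp only [hy, mul_zero, Function.iterate_zero, id_eq, hy0, he.extend_apply]
    | succ n ih =>
      rw [Function.iterate_succ_apply', ← ih]
      funext i
      rw [Nat.mul_succ, hloop]
  intro n i
  exact congrFun (key n) i

/-- Every coordinate of the orbit of a polynomial self-map of `ℂ^σ` is a subsequence along an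
arithmetic progression of a coordinate of the orbit of a map `step op u v`. -/
theorem normal_form {σ : Type} [Finite σ] (F : σ → MvPolynomial σ ℂ) (z : σ → ℂ) (i : σ) :
    ∃ (m : ℕ) (op : Fin m → Bool) (u v : Fin m → Fin m) (a : Fin m → ℂ) (j : Fin m) (k : ℕ),
      0 < k ∧ ∀ n, ((step op u v)^[k * n] a) j = ((fun x s => eval x (F s))^[n] z) i := by
  classical
  obtain ⟨κ, _, c, f, hf, H⟩ := CompF.family σ F
  have hg := Chain.layer _ (fun j : σ ⊕ κ => (Sum.elim (fun s => Gate.copy (Sum.inr s))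
    (fun k => Gate.copy (Sum.inl (Sum.inr k))) j : Gate ((σ ⊕ κ) ⊕ σ))) hf
  obtain ⟨ρ, _, e, G, k, y, hk, hloop⟩ := hg.loop (Sum.elim z c)
  have hiter : ∀ n, (fun (x : σ ⊕ κ → ℂ) (j : σ ⊕ κ) =>
      (Sum.elim (fun s => Gate.copy (Sum.inr s))
        (fun k => Gate.copy (Sum.inl (Sum.inr k))) j : Gate ((σ ⊕ κ) ⊕ σ)).val (f x))^[n]
        (Sum.elim z c) = Sum.elim ((fun x s => eval x (F s))^[n] z) c := by
    intro n
    induction n with
    | zero => rfl
    | succ n ih =>
      rw [Function.iterate_succ_apply', ih, H, Function.iterate_succ_apply']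
      funext j
      cases j <;> simp
  -- replace copies by multiplications by one
  set op : ρ ⊕ Unit → Bool := Sum.elim (fun j => match G j with
    | .copy _ => false
    | .add _ _ => true
    | .mul _ _ => false) (fun _ => false) with hop
  set u : ρ ⊕ Unit → ρ ⊕ Unit := Sum.elim (fun j => match G j with
    | .copy a => Sum.inl a
    | .add a _ => Sum.inl a
    | .mul a _ => Sum.inl a) (fun _ => Sum.inr ()) with hu
  set v : ρ ⊕ Unit → ρ ⊕ Unit := Sum.elim (fun j => match G j with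
    | .copy _ => Sum.inr ()
    | .add _ b => Sum.inl b
    | .mul _ b => Sum.inl b) (fun _ => Sum.inr ()) with hv
  have hs : ∀ x : ρ → ℂ, step op u v (Sum.elim x fun _ => 1) =
      Sum.elim (fun j => (G j).val x) fun _ => 1 := by
    intro x
    funext j
    rcases j with j | j
    · simp only [step, hop, hu, hv, Sum.elim_inl]
      cases G j <;> simp
    · simp [step, hop, hu, hv]
  have hs' : ∀ n, (step op u v)^[n] (Sum.elim y fun _ => 1) =
      Sum.elim ((fun (x : ρ → ℂ) j => (G j).val x)^[n] y) fun _ => 1 := by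
    intro n
    induction n with
    | zero => rfl
    | succ n ih => rw [Function.iterate_succ_apply', ih, hs, Function.iterate_succ_apply']
  obtain ⟨m, ⟨φ⟩⟩ := Finite.exists_equiv_fin (ρ ⊕ Unit)
  refine ⟨m, fun j => op (φ.symm j), fun j => φ (u (φ.symm j)), fun j => φ (v (φ.symm j)),
    fun j => (Sum.elim y fun _ => 1 : ρ ⊕ Unit → ℂ) (φ.symm j), φ (Sum.inl (e (Sum.inl i))), k,
    hk, fun n => ?_⟩
  have hconj : ∀ (n : ℕ) (x : ρ ⊕ Unit → ℂ),
      (step (fun j => op (φ.symm j)) (fun j => φ (u (φ.symm j))) fun j => φ (v (φ.symm j)))^[n]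
        (fun j => x (φ.symm j)) = fun j => ((step op u v)^[n] x) (φ.symm j) := by
    intro n
    induction n with
    | zero => intro x; rfl
    | succ n ih =>
      intro x
      rw [Function.iterate_succ_apply', ih, Function.iterate_succ_apply']
      funext j
      simp [step]
  rw [hconj, hs']
  simp only [Equiv.symm_apply_apply, Sum.elim_inl, hloop, hiter]

end Pool.Agent.W206.DML
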