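import Mathlib

/-!
Jouanolou's trick: an endomorphism of a quasiprojective variety lifts to a polynomial self-map of
an affine space.
-/

set_option autoImplicit false

namespace Pool.Agent.W206.DML

open MvPolynomial

theorem hom_eval {n d : ℕ} {F : MvPolynomial (Fin n) ℂ} (hF : F.IsHomogeneous d) (c : ℂ)
    (v : Fin n → ℂ) : eval (fun i => c * v i) F = c ^ d * eval v F := by
  rw [eval_eq', eval_eq', Finset.mul_sum]
  refine Finset.sum_congr rfl fun m hm => ?_
  have h : (Finsupp.weight fun _ => 1) m = d := hF (mem_support_iff.1 hm)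
  rw [← Finsupp.degree_eq_weight_one, Finsupp.degree_eq_sum] at h
  simp only [mul_pow, Finset.prod_mul_distrib, Finset.prod_pow_eq_pow_sum, h]
  ring

/-- Nullstellensatz: functions without common zero on a closed set generate the unit ideal. -/
theorem nullst {σ ι : Type} [Finite σ] (S : Set (MvPolynomial σ ℂ)) (f : ι → MvPolynomial σ ℂ)
    (h : ∀ z : σ → ℂ, (∀ s ∈ S, eval z s = 0) → ∃ i, eval z (f i) ≠ 0) :
    ∃ c : ι →₀ MvPolynomial σ ℂ, ∀ z : σ → ℂ, (∀ s ∈ S, eval z s = 0) →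
      ∑ i ∈ c.support, eval z (c i) * eval z (f i) = 1 := by
  set I : Ideal (MvPolynomial σ ℂ) := Ideal.span (S ∪ Set.range f) with hI
  have hempty : zeroLocus ℂ I = ∅ := by
    rw [hI, zeroLocus_span]
    ext z
    refine ⟨fun hz => ?_, fun hz => absurd hz (Set.notMem_empty z)⟩
    change ∀ p ∈ S ∪ Set.range f, aeval z p = 0 at hz
    obtain ⟨i, hi⟩ := h z fun s hs => by
      have := hz s (Or.inl hs)
      simpa [aeval_def] using this
    exact hi (by simpa [aeval_def] using hz (f i) (Or.inr ⟨i, rfl⟩))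
  have htop : I = ⊤ := by
    have h1 := vanishingIdeal_zeroLocus_eq_radical (k := ℂ) (K := ℂ) I
    rw [hempty] at h1
    rw [← Ideal.radical_eq_top, ← h1, eq_top_iff]
    intro p _ x hx
    exact absurd hx (Set.notMem_empty x)
  have h1 : (1 : MvPolynomial σ ℂ) ∈ Ideal.span S ⊔ Ideal.span (Set.range f) := by
    rw [← Ideal.span_union, ← hI, htop]
    trivial
  obtain ⟨a, ha, b, hb, hab⟩ := Submodule.mem_sup.1 h1
  obtain ⟨c, hc⟩ := Finsupp.mem_ideal_span_range_iff_exists_finsupp.1 hb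
  refine ⟨c, fun z hz => ?_⟩
  have ha0 : eval z a = 0 := by
    have : Ideal.span S ≤ RingHom.ker (eval z) := Ideal.span_le.2 fun s hs => hz s hs
    exact this ha
  have h2 := congrArg (eval z) hab
  rw [map_add, ha0, zero_add, map_one, ← hc, Finsupp.sum, map_sum] at h2
  simpa using h2

/-- The complex projective space of dimension `N`. -/
abbrev PP (N : ℕ) : Type := Projectivization ℂ (Fin (N + 1) → ℂ)

/-- Coordinates on the lifted space: the entries of a matrix and coefficients `t`. -/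
abbrev St (N : ℕ) (B : Finset (MvPolynomial (Fin (N + 1)) ℂ)) : Type :=
  (Fin (N + 1) × Fin (N + 1)) ⊕ ({g // g ∈ B} × Fin (N + 1))

variable {N : ℕ} {B : Finset (MvPolynomial (Fin (N + 1)) ℂ)}

/-- The polynomial `G` evaluated at the column `b` of the matrix. -/
noncomputable def col (B : Finset (MvPolynomial (Fin (N + 1)) ℂ)) (b : Fin (N + 1))
    (G : MvPolynomial (Fin (N + 1)) ℂ) : MvPolynomial (St N B) ℂ :=
  bind₁ (fun a => X (Sum.inl (a, b))) G

theorem eval_bind {σ τ : Type} (z : τ → ℂ) (g : σ → MvPolynomial τ ℂ) (G : MvPolynomial σ ℂ) :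
    eval z (bind₁ g G) = eval (fun a => eval z (g a)) G := by
  change eval₂Hom (RingHom.id ℂ) z (bind₁ g G) = eval₂Hom (RingHom.id ℂ) (fun a => eval z (g a)) G
  rw [eval₂Hom_bind₁]
  rfl

@[simp] theorem eval_col (z : St N B → ℂ) (b : Fin (N + 1)) (G : MvPolynomial (Fin (N + 1)) ℂ) :
    eval z (col B b G) = eval (fun a => z (Sum.inl (a, b))) G := by
  simp [col, eval_bind]

/-- `z` lies over the point `p`. -/
def Over (z : St N B → ℂ) (p : PP N) : Prop :=
  ∃ y : Fin (N + 1) → ℂ, (∀ a b, z (Sum.inl (a, b)) = y b * p.rep a) ∧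
    ∑ b, y b * p.rep b = 1 ∧
    ∑ j : {g // g ∈ B} × Fin (N + 1), z (Sum.inr j) *
      eval (fun a => z (Sum.inl (a, j.2))) j.1.1 = 1

/-- The equations of the lifted space. -/
def Eqs (A : Set (MvPolynomial (Fin (N + 1)) ℂ)) (B : Finset (MvPolynomial (Fin (N + 1)) ℂ)) :
    Set (MvPolynomial (St N B) ℂ) :=
  {P | (∃ a b c d : Fin (N + 1), P = X (Sum.inl (a, b)) * X (Sum.inl (c, d)) -
      X (Sum.inl (a, d)) * X (Sum.inl (c, b))) ∨
    P = ∑ a : Fin (N + 1), X (Sum.inl (a, a)) - 1 ∨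
    (∃ F ∈ A, ∃ b, P = col B b F) ∨
    P = ∑ j : {g // g ∈ B} × Fin (N + 1), X (Sum.inr j) * col B j.2 j.1.1 - 1}

theorem rep_scale {v : Fin (N + 1) → ℂ} (hv : v ≠ 0) :
    ∃ c : ℂ, c ≠ 0 ∧ (Projectivization.mk ℂ v hv).rep = fun i => c * v i := by
  obtain ⟨a, ha⟩ := Projectivization.exists_smul_eq_mk_rep ℂ v hv
  exact ⟨a, a.ne_zero, by rw [← ha]; rfl⟩

theorem eval_rep_iff {v : Fin (N + 1) → ℂ} (hv : v ≠ 0) {F : MvPolynomial (Fin (N + 1)) ℂ} {d : ℕ}
    (hF : F.IsHomogeneous d) :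
    eval (Projectivization.mk ℂ v hv).rep F = 0 ↔ eval v F = 0 := by
  obtain ⟨c, hc, h⟩ := rep_scale hv
  rw [h, hom_eval hF]
  simp [hc]

section

variable {X' : Set (PP N)} {A : Set (MvPolynomial (Fin (N + 1)) ℂ)}
  (hA : ∀ F ∈ A, ∃ d : ℕ, F.IsHomogeneous d) (hB : ∀ F ∈ B, ∃ d : ℕ, F.IsHomogeneous d)
  (hX : ∀ p : PP N, p ∈ X' ↔ ((∀ F ∈ A, eval p.rep F = 0) ∧ ∃ F ∈ B, eval p.rep F ≠ 0))

include hA hX in
theorem eqs_of_over {z : St N B → ℂ} {p : PP N} (hp : p ∈ X') (h : Over z p) :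
    ∀ P ∈ Eqs A B, eval z P = 0 := by
  obtain ⟨y, h1, h2, h3⟩ := h
  rintro P (⟨a, b, c, d, rfl⟩ | rfl | ⟨F, hF, b, rfl⟩ | rfl)
  · simp only [map_sub, map_mul, eval_X, h1]
    ring
  · simp only [map_sub, map_sum, eval_X, h1, h2, map_one, sub_self]
  · obtain ⟨d, hd⟩ := hA F hF
    rw [eval_col]
    simp only [h1]
    rw [hom_eval hd, ((hX p).1 hp).1 F hF, mul_zero]
  · simp only [map_sub, map_sum, map_mul, eval_X, eval_col, h3, map_one, sub_self]

include hA hB hX in
theorem over_of_eqs {z : St N B → ℂ} (hz : ∀ P ∈ Eqs A B, eval z P = 0) :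
    ∃ p ∈ X', Over z p := by
  have e1 : ∀ a b c d, z (Sum.inl (a, b)) * z (Sum.inl (c, d)) =
      z (Sum.inl (a, d)) * z (Sum.inl (c, b)) := by
    intro a b c d
    have := hz _ (Or.inl ⟨a, b, c, d, rfl⟩)
    simpa [sub_eq_zero] using this
  have e2 : ∑ a, z (Sum.inl (a, a)) = 1 := by
    have := hz _ (Or.inr (Or.inl rfl))
    simpa [sub_eq_zero] using this
  have e3 : ∀ F ∈ A, ∀ b, eval (fun a => z (Sum.inl (a, b))) F = 0 := by
    intro F hF b
    have := hz _ (Or.inr (Or.inr (Or.inl ⟨F, hF, b, rfl⟩)))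
    simpa using this
  have e4 : ∑ j : {g // g ∈ B} × Fin (N + 1), z (Sum.inr j) *
      eval (fun a => z (Sum.inl (a, j.2))) j.1.1 = 1 := by
    have := hz _ (Or.inr (Or.inr (Or.inr rfl)))
    simpa [sub_eq_zero] using this
  obtain ⟨c, hc⟩ : ∃ c, z (Sum.inl (c, c)) ≠ 0 := by
    by_contra hne
    push Not at hne
    simp [hne] at e2
  set v : Fin (N + 1) → ℂ := fun a => z (Sum.inl (a, c)) with hv
  have hv0 : v ≠ 0 := fun h => hc (congrFun h c)
  have hy : ∀ a b, z (Sum.inl (a, b)) = z (Sum.inl (c, b)) / z (Sum.inl (c, c)) * v a := by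
    intro a b
    rw [hv]
    field_simp
    have := e1 a b c c
    linear_combination this
  obtain ⟨l, hl, hrep⟩ := rep_scale hv0
  refine ⟨Projectivization.mk ℂ v hv0, ?_, fun b => z (Sum.inl (c, b)) / z (Sum.inl (c, c)) / l,
    ?_, ?_, e4⟩
  · rw [hX]
    constructor
    · intro F hF
      obtain ⟨d, hd⟩ := hA F hF
      rw [eval_rep_iff hv0 hd]
      exact e3 F hF c
    · by_contra hne
      push Not at hne
      apply one_ne_zero (α := ℂ)
      rw [← e4]
      refine Finset.sum_eq_zero fun j _ => ?_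
      obtain ⟨d, hd⟩ := hB j.1.1 j.1.2
      have h1 := (eval_rep_iff hv0 hd).1 (hne j.1.1 j.1.2)
      have h2 : (fun a => z (Sum.inl (a, j.2))) =
          fun a => z (Sum.inl (c, j.2)) / z (Sum.inl (c, c)) * v a := funext fun a => hy a _
      rw [h2, hom_eval hd, h1]
      simp
  · intro a b
    rw [hrep, hy a b]
    field_simp
  · rw [hrep]
    rw [← e2]
    refine Finset.sum_congr rfl fun b _ => ?_
    rw [hy b b]
    field_simp

end

end Pool.Agent.W206.DML
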