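import Pool.Agent.W206.DML.AP
import Pool.Agent.W206.DML.Gate
import Pool.Agent.W206.DML.Lift

/-!
Lifting endomorphisms of quasiprojective varieties to polynomial self-maps of affine spaces.
-/

set_option autoImplicit false

namespace Pool.Agent.W206.DML

open MvPolynomial

section

variable {N : ℕ} {B : Finset (MvPolynomial (Fin (N + 1)) ℂ)}

theorem exists_ne {p : PP N} {y : Fin (N + 1) → ℂ}
    (h : ∑ b, y b * p.rep b = 1) : ∃ b, y b ≠ 0 := by
  by_contra hne
  push Not at hne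
  simp [hne] at h

theorem exists_over {p : PP N} (hB : ∀ F ∈ B, ∃ d : ℕ, F.IsHomogeneous d)
    (h : ∃ F ∈ B, eval p.rep F ≠ 0) : ∃ z : St N B → ℂ, Over z p := by
  classical
  obtain ⟨F, hF, hne⟩ := h
  obtain ⟨c, hc⟩ : ∃ c, p.rep c ≠ 0 := by
    by_contra hne
    push Not at hne
    exact p.rep_nonzero (funext hne)
  obtain ⟨d, hd⟩ := hB F hF
  set y : Fin (N + 1) → ℂ := Pi.single c (p.rep c)⁻¹ with hy
  have hyc : y c = (p.rep c)⁻¹ := by rw [hy, Pi.single_eq_same]
  have hval : eval (fun a => y c * p.rep a) F ≠ 0 := by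
    rw [hom_eval hd]
    exact mul_ne_zero (pow_ne_zero _ (by rw [hyc]; exact inv_ne_zero hc)) hne
  refine ⟨Sum.elim (fun ab => y ab.2 * p.rep ab.1)
    (Pi.single (⟨F, hF⟩, c) (eval (fun a => y c * p.rep a) F)⁻¹), y, fun a b => rfl, ?_, ?_⟩
  · rw [Finset.sum_eq_single c]
    · rw [hyc, inv_mul_cancel₀ hc]
    · intro b _ hb
      rw [hy, Pi.single_eq_of_ne hb, zero_mul]
    · intro h
      exact absurd (Finset.mem_univ c) h
  · rw [Finset.sum_eq_single (⟨F, hF⟩, c)]
    · simp only [Sum.elim_inr, Sum.elim_inl, Pi.single_eq_same]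
      exact inv_mul_cancel₀ hval
    · intro b _ hb
      simp only [Sum.elim_inr]
      rw [Pi.single_eq_of_ne hb, zero_mul]
    · intro h
      exact absurd (Finset.mem_univ _) h

theorem Over.eval_iff {z : St N B → ℂ} {p : PP N} (h : Over z p)
    {F : MvPolynomial (Fin (N + 1)) ℂ} {d : ℕ} (hF : F.IsHomogeneous d) :
    eval p.rep F = 0 ↔ ∀ b, eval z (col B b F) = 0 := by
  obtain ⟨y, h1, h2, h3⟩ := h
  obtain ⟨b, hb⟩ := exists_ne h2
  have key : ∀ b, eval z (col B b F) = y b ^ d * eval p.rep F := by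
    intro b
    rw [eval_col]
    simp only [h1]
    exact hom_eval hF _ _
  constructor
  · intro h b
    rw [key, h, mul_zero]
  · intro h
    have := h b
    rw [key] at this
    exact (mul_eq_zero.1 this).resolve_left (pow_ne_zero _ hb)

variable {X' : Set (PP N)} {A : Set (MvPolynomial (Fin (N + 1)) ℂ)}
  (hA : ∀ F ∈ A, ∃ d : ℕ, F.IsHomogeneous d) (hB : ∀ F ∈ B, ∃ d : ℕ, F.IsHomogeneous d)
  (hX : ∀ p : PP N, p ∈ X' ↔ ((∀ F ∈ A, eval p.rep F = 0) ∧ ∃ F ∈ B, eval p.rep F ≠ 0))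
  {Φ : PP N → PP N} (hΦX : ∀ x ∈ X', Φ x ∈ X')
  (hΦ : ∀ x ∈ X', ∃ (d e : ℕ) (F : Fin (N + 1) → MvPolynomial (Fin (N + 1)) ℂ)
    (g : MvPolynomial (Fin (N + 1)) ℂ),
    (∀ i, (F i).IsHomogeneous d) ∧ g.IsHomogeneous e ∧ MvPolynomial.eval x.rep g ≠ 0 ∧
    ∀ y ∈ X', MvPolynomial.eval y.rep g ≠ 0 →
      (fun i : Fin (N + 1) => MvPolynomial.eval y.rep (F i)) ≠ 0 ∧
      (fun i : Fin (N + 1) => MvPolynomial.eval y.rep (F i)) ∈ (Φ y).submodule)

include hA hB hX hΦX hΦ in
/-- **Jouanolou's trick.** The endomorphism `Φ` lifts to a polynomial map. -/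
theorem exists_lift : ∃ Q : St N B → MvPolynomial (St N B) ℂ,
    ∀ p ∈ X', ∀ z : St N B → ℂ, Over z p → Over (fun s => eval z (Q s)) (Φ p) := by
  classical
  choose! d e F g hF hg hgx hy using hΦ
  -- the representing vectors, as functions on the lifted space
  set f : {x // x ∈ X'} × Fin (N + 1) × Fin (N + 1) → MvPolynomial (St N B) ℂ :=
    fun i => col B i.2.1 (g i.1.1 * F i.1.1 i.2.2) with hf
  have hhom : ∀ x ∈ X', ∀ a, (g x * F x a).IsHomogeneous (e x + d x) :=
    fun x hx a => (hg x hx).mul (hF x hx a)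
  obtain ⟨c, hc⟩ := nullst (Eqs A B) f (by
    intro z hz
    obtain ⟨p, hp, y, h1, h2, h3⟩ := over_of_eqs hA hB hX hz
    obtain ⟨b, hb⟩ := exists_ne h2
    obtain ⟨a, ha⟩ : ∃ a, eval p.rep (F p a) ≠ 0 := by
      by_contra hne
      push Not at hne
      exact (hy p hp p hp (hgx p hp)).1 (funext hne)
    refine ⟨(⟨p, hp⟩, b, a), ?_⟩
    simp only [hf, eval_col, h1]
    rw [hom_eval (hhom p hp a), map_mul]
    exact mul_ne_zero (pow_ne_zero _ hb) (mul_ne_zero (hgx p hp) ha))
  set P : Fin (N + 1) → Fin (N + 1) → MvPolynomial (St N B) ℂ := fun a k =>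
    ∑ i ∈ c.support with i.2.2 = k, c i * f (i.1, i.2.1, a) with hP
  -- the new matrix has rank one
  have hmat : ∀ p ∈ X', ∀ z : St N B → ℂ, Over z p → ∃ y' : Fin (N + 1) → ℂ,
      (∀ a b, eval z (P a b) = y' b * (Φ p).rep a) ∧ ∑ b, y' b * (Φ p).rep b = 1 := by
    intro p hp z hz
    have hz' := eqs_of_over hA hX hp hz
    obtain ⟨y, h1, h2, h3⟩ := hz
    have hlam : ∀ (x : {x // x ∈ X'}) (b : Fin (N + 1)), ∃ l : ℂ, ∀ a,
        eval z (f (x, b, a)) = l * (Φ p).rep a := by
      intro x b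
      simp only [hf, eval_col, h1]
      by_cases h0 : eval p.rep (g x.1) = 0
      · refine ⟨0, fun a => ?_⟩
        rw [hom_eval (hhom x.1 x.2 a), map_mul, h0]
        ring
      · have hmem := (hy x.1 x.2 p hp h0).2
        rw [Projectivization.submodule_eq, Submodule.mem_span_singleton] at hmem
        obtain ⟨μ, hμ⟩ := hmem
        refine ⟨y b ^ (e x.1 + d x.1) * eval p.rep (g x.1) * μ, fun a => ?_⟩
        rw [hom_eval (hhom x.1 x.2 a), map_mul]
        have := congrFun hμ a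
        simp only [Pi.smul_apply, smul_eq_mul] at this
        rw [← this]
        ring
    choose l hl using hlam
    refine ⟨fun k => ∑ i ∈ c.support with i.2.2 = k, eval z (c i) * l i.1 i.2.1, ?_, ?_⟩
    · intro a b
      rw [hP]
      simp only [map_sum, map_mul, hl, Finset.sum_mul]
      refine Finset.sum_congr rfl fun i _ => by ring
    · rw [← hc z hz']
      simp only [Finset.sum_mul]
      rw [← Finset.sum_fiberwise c.support (fun i => i.2.2)]
      refine Finset.sum_congr rfl fun k _ => Finset.sum_congr rfl fun i hi => ?_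
      have hik : i.2.2 = k := (Finset.mem_filter.1 hi).2
      have : f i = f (i.1, i.2.1, i.2.2) := rfl
      rw [this, hl, hik]
      ring
  obtain ⟨c₂, hc₂⟩ := nullst (Eqs A B)
    (fun j : {g // g ∈ B} × Fin (N + 1) => bind₁ (fun a => P a j.2) j.1.1) (by
    intro z hz
    obtain ⟨p, hp, hz'⟩ := over_of_eqs hA hB hX hz
    obtain ⟨y', h1, h2⟩ := hmat p hp z hz'
    obtain ⟨b, hb⟩ := exists_ne h2
    obtain ⟨G, hG, hne⟩ := ((hX _).1 (hΦX p hp)).2
    obtain ⟨dG, hdG⟩ := hB G hG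
    refine ⟨(⟨G, hG⟩, b), ?_⟩
    simp only [eval_bind, h1]
    rw [hom_eval hdG]
    exact mul_ne_zero (pow_ne_zero _ hb) hne)
  refine ⟨Sum.elim (fun ab => P ab.1 ab.2) fun j => c₂ j, fun p hp z hz => ?_⟩
  obtain ⟨y', h1, h2⟩ := hmat p hp z hz
  refine ⟨y', fun a b => h1 a b, h2, ?_⟩
  have h3 := hc₂ z (eqs_of_over hA hX hp hz)
  simp only [eval_bind] at h3
  rw [← h3]
  simp only [Sum.elim_inr, Sum.elim_inl]
  symm
  refine Finset.sum_subset (Finset.subset_univ _) fun j _ hj => ?_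
  rw [Finsupp.notMem_support_iff.1 hj, map_zero, zero_mul]

end

/-- The return sets of polynomial self-maps to hypersurfaces reduce to the normal form. -/
theorem fu_of_normal_form
    (H : ∀ (m : ℕ) (op : Fin m → Bool) (u v : Fin m → Fin m) (a : Fin m → ℂ) (i : Fin m),
      FU {n | ((step op u v)^[n] a) i = 0})
    {σ : Type} [Finite σ] (F : σ → MvPolynomial σ ℂ) (z : σ → ℂ) (G : MvPolynomial σ ℂ) :
    FU {n | eval ((fun x s => eval x (F s))^[n] z) G = 0} := by
  set F' : σ ⊕ Unit → MvPolynomial (σ ⊕ Unit) ℂ :=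
    Sum.elim (fun s => rename Sum.inl (F s)) (fun _ => rename Sum.inl G) with hF'
  have hiter : ∀ n, (fun (x : σ ⊕ Unit → ℂ) s => eval x (F' s))^[n + 1] (Sum.elim z fun _ => 0) =
      Sum.elim ((fun x s => eval x (F s))^[n + 1] z)
        fun _ => eval ((fun x s => eval x (F s))^[n] z) G := by
    intro n
    induction n with
    | zero =>
      funext j
      rcases j with s | s
      · simp [hF', eval_rename, Function.comp_def]
      · simp [hF', eval_rename, Function.comp_def]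
    | succ n ih =>
      rw [Function.iterate_succ_apply', ih]
      funext j
      rcases j with s | s
      · simp only [hF', Sum.elim_inl, eval_rename]
        rw [Function.iterate_succ_apply' (n := n + 1)]
        rfl
      · simp only [hF', Sum.elim_inr, eval_rename]
        rfl
  obtain ⟨m, op, u, v, a, j, k, hk, h⟩ := normal_form F' (Sum.elim z fun _ => 0) (Sum.inr ())
  have h1 := (H m op u v a j).preimage k k
  convert h1 using 1
  ext n
  change _ = 0 ↔ ((step op u v)^[k * n + k] a) j = 0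
  rw [← Nat.mul_succ, h, hiter]
  rfl

end Pool.Agent.W206.DML
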